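import Pool.Agent.H41.CZ.Defs

/-!
# CHN: chains of elements of the model are chains
-/

set_option linter.unusedVariables false

open Ordinal Order Set
open scoped ZFSet

namespace CZ.H14C

open SF CZ

variable {M : V → Prop}

theorem mins (k : ZFm M) {a b : V} (ha : M a) (hb : M b) : M (insert a b) :=
  (Tm.ins (Tm.var 0) (Tm.var 1)).1 M k (cons a fun _ => b) (by
    intro i
    cases i with
    | zero => exact ha
    | succ i => exact hb)

theorem msing (k : ZFm M) {a : V} (ha : M a) : M ({a} : V) :=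
  (Tm.sing (Tm.var 0)).1 M k (fun _ => a) fun _ => ha

theorem mnS (k : ZFm M) (n : ℕ) : M (nS n) := (Tm.nS n).1 M k (fun _ => nS 0) fun _ =>
  (by rw [nS_zero]; exact ZFm.mempty k)

theorem mem_nS_iff {n : ℕ} {x : V} : x ∈ nS n ↔ ∃ j < n, x = nS j := by
  induction n with
  | zero =>
    rw [nS_zero]
    constructor
    · intro h
      exact absurd h (ZFSet.notMem_empty x)
    · rintro ⟨j, hj, _⟩
      omega
  | succ n ih =>
    rw [nS_succ, ZFSet.mem_insert_iff, ih]
    constructor
    · rintro (h | ⟨j, hj, h⟩)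
      · exact ⟨n, by omega, h⟩
      · exact ⟨j, by omega, h⟩
    · rintro ⟨j, hj, h⟩
      rcases Nat.lt_or_ge j n with h1 | h1
      · exact Or.inr ⟨j, h1, h⟩
      · have : j = n := by omega
        subst this
        exact Or.inl h

/-- the graph of `f` on `0, ..., k` -/
noncomputable def zS (f : ℕ → V) : ℕ → V
  | 0 => {ZFSet.pair (nS 0) (f 0)}
  | k + 1 => insert (ZFSet.pair (nS (k + 1)) (f (k + 1))) (zS f k)

theorem mem_zS {f : ℕ → V} {k : ℕ} {x : V} :
    x ∈ zS f k ↔ ∃ i ≤ k, x = ZFSet.pair (nS i) (f i) := by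
  induction k with
  | zero =>
    show x ∈ ({ZFSet.pair (nS 0) (f 0)} : V) ↔ _
    rw [ZFSet.mem_singleton]
    constructor
    · intro h
      exact ⟨0, le_refl _, h⟩
    · rintro ⟨i, hi, h⟩
      rw [Nat.le_zero.1 hi] at h
      exact h
  | succ k ih =>
    show x ∈ (insert (ZFSet.pair (nS (k + 1)) (f (k + 1))) (zS f k) : V) ↔ _
    rw [ZFSet.mem_insert_iff, ih]
    constructor
    · rintro (h | ⟨i, hi, h⟩)
      · exact ⟨k + 1, le_refl _, h⟩
      · exact ⟨i, by omega, h⟩
    · rintro ⟨i, hi, h⟩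
      rcases Nat.lt_or_ge k i with hki | hki
      · have : i = k + 1 := by omega
        subst this
        exact Or.inl h
      · exact Or.inr ⟨i, hki, h⟩

theorem app_zS {f : ℕ → V} {k i : ℕ} (hi : i ≤ k) : app (zS f k) (nS i) = f i := by
  apply app_eq
  · intro x y y' h h'
    obtain ⟨j, hj, h1⟩ := mem_zS.1 h
    obtain ⟨j', hj', h1'⟩ := mem_zS.1 h'
    obtain ⟨h2, h3⟩ := ZFSet.pair_injective h1
    obtain ⟨h2', h3'⟩ := ZFSet.pair_injective h1'
    have h4 : j = j' := nS_inj.1 (h2.symm.trans h2')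
    rw [h3, h3', h4]
  · exact mem_zS.2 ⟨i, hi, rfl⟩

theorem m_zS (hM : ZFm M) {f : ℕ → V} (hf : ∀ i, M (f i)) (k : ℕ) : M (zS f k) := by
  induction k with
  | zero => exact msing hM (ZFm.mpair hM (mnS hM 0) (hf 0))
  | succ k ih => exact mins hM (ZFm.mpair hM (mnS hM (k + 1)) (hf (k + 1))) ih

theorem m_Uc {X R c t : V} (h : t ∈ Uc M X R c) : M t :=
  (ZFSet.mem_sep.1 (ZFSet.mem_sep.1 (ZFSet.mem_sep.1 h).1).1).2

end CZ.H14C

namespace CZ

open SF H14C

theorem pf_CHN : T_CHN := by
  intro M X R d hM hX hR c hc t ht t'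
  have hZ : ZFm M := hM.toZFm
  constructor
  · rintro ⟨z, hz, m, hm, hmo, h0, h1, h2⟩
    obtain ⟨k, rfl⟩ := mem_om.1 hmo
    have key : ∀ j ≤ k, app z (nS j) ∈ Uc M X R c ∧
        Relation.ReflTransGen (fun s s' => s ∈ Uc M X R c ∧ s' ∈ Uc M X R c ∧ Stp R c s s') t
          (app z (nS j)) := by
      intro j
      induction j with
      | zero =>
        intro _
        rw [h0]
        exact ⟨ht, Relation.ReflTransGen.refl⟩
      | succ j ih =>
        intro hj
        obtain ⟨h3, h4⟩ := ih (by omega)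
        have h5 : nS j ∈ nS k := by
          rw [mem_nS_iff]
          exact ⟨j, by omega, rfl⟩
        obtain ⟨h6, h7⟩ := h2 (nS j) h5
        rw [← nS_succ] at h6 h7
        exact ⟨h6, h4.tail ⟨h3, h6, h7⟩⟩
    rw [← h1]
    exact (key k (le_refl k)).2
  · intro h
    have key : ∃ (f : ℕ → V) (k : ℕ), (∀ i, M (f i)) ∧ f 0 = t ∧ f k = t' ∧
        ∀ i < k, f (i + 1) ∈ Uc M X R c ∧ Stp R c (f i) (f (i + 1)) := by
      induction h with
      | refl => exact ⟨fun _ => t, 0, fun _ => m_Uc ht, rfl, rfl, fun i hi => absurd hi (by omega)⟩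
      | tail hab hbc ih =>
        rename_i b e
        obtain ⟨f, k, h1, h2, h3, h4⟩ := ih
        refine ⟨fun i => if i ≤ k then f i else e, k + 1, ?_, ?_, ?_, ?_⟩
        · intro i
          show M (if i ≤ k then f i else e)
          split_ifs
          · exact h1 i
          · exact m_Uc hbc.2.1
        · show (if 0 ≤ k then f 0 else e) = t
          rw [if_pos (Nat.zero_le k), h2]
        · show (if k + 1 ≤ k then f (k + 1) else e) = e
          rw [if_neg (by omega)]
        · intro i hi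
          show (if i + 1 ≤ k then f (i + 1) else e) ∈ Uc M X R c ∧
            Stp R c (if i ≤ k then f i else e) (if i + 1 ≤ k then f (i + 1) else e)
          rcases Nat.lt_or_ge i k with h5 | h5
          · rw [if_pos (by omega), if_pos (by omega)]
            exact h4 i h5
          · have h6 : i = k := by omega
            subst h6
            rw [if_neg (by omega), if_pos (le_refl i), h3]
            exact ⟨hbc.2.1, hbc.2.2⟩
    obtain ⟨f, k, h1, h2, h3, h4⟩ := key
    refine ⟨zS f k, m_zS hZ h1 k, nS k, mnS hZ k, mem_om.2 ⟨k, rfl⟩, ?_, ?_, ?_⟩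
    · rw [app_zS (Nat.zero_le k), h2]
    · rw [app_zS (le_refl k), h3]
    · intro i hi
      obtain ⟨j, hj, rfl⟩ := mem_nS_iff.1 hi
      rw [← nS_succ, app_zS (by omega), app_zS (by omega)]
      exact h4 j hj

end CZ
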