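import Pool.Agent.H41.CZ.Defs
import Pool.Agent.H58.SE.AA

/-!
# SEP: separation of points by existential conditions
-/

set_option linter.unusedVariables false

open Ordinal Order Set Filter Topology
open scoped ZFSet

namespace CZ.H14S

/-! ## Metric part -/

section

variable {Y : Type 1} [MetricSpace Y] [CompactSpace Y]

theorem ulim (s : ℕ → Y) : ∃ x, Tendsto s (hyperfilter ℕ : Filter ℕ) (𝓝 x) := by
  obtain ⟨x, -, hx⟩ := isCompact_univ.ultrafilter_le_nhds ((hyperfilter ℕ).map s)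
    (by rw [Filter.principal_univ]; exact le_top)
  exact ⟨x, hx⟩

omit [CompactSpace Y] in
theorem iter_dist (g : Y → Y) (hg : ∀ x y, dist (g x) (g y) = dist x y) (n : ℕ) (x y : Y) :
    dist (g^[n] x) (g^[n] y) = dist x y := by
  induction n with
  | zero => rfl
  | succ n ih => rw [Function.iterate_succ_apply', Function.iterate_succ_apply', hg, ih]

theorem surj (g : Y → Y) (hg : ∀ x y, dist (g x) (g y) = dist x y) : Function.Surjective g := by
  intro y
  by_contra hy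
  have hiso : Isometry g := isometry_iff_dist_eq.2 hg
  have hcl : IsClosed (range g) := (isCompact_range hiso.continuous).isClosed
  have hy' : y ∈ (range g)ᶜ := hy
  obtain ⟨ε, hε, hball⟩ := Metric.isOpen_iff.1 hcl.isOpen_compl y hy'
  have hfar : ∀ x, ε ≤ dist (g x) y := by
    intro x
    by_contra h
    push Not at h
    exact hball (Metric.mem_ball.2 h) ⟨x, rfl⟩
  obtain ⟨a, -, φ, hφ, hlim⟩ := isCompact_univ.tendsto_subseq
    (x := fun n => g^[n] y) (fun n => mem_univ _)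
  have h1 := Metric.tendsto_atTop.1 hlim (ε / 2) (by linarith)
  obtain ⟨N, hN⟩ := h1
  have h2 := hN N (le_refl N)
  have h3 := hN (N + 1) (by omega)
  have h4 : φ N < φ (N + 1) := hφ (by omega)
  obtain ⟨k, hk⟩ : ∃ k, φ (N + 1) = φ N + (k + 1) := ⟨φ (N + 1) - φ N - 1, by omega⟩
  have h5 : dist (g^[φ (N + 1)] y) (g^[φ N] y) = dist (g (g^[k] y)) y := by
    rw [hk, Function.iterate_add_apply, iter_dist g hg, Function.iterate_succ_apply']
  have h6 : dist (g^[φ (N + 1)] y) (g^[φ N] y) < ε := by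
    have h7 := dist_triangle_right (g^[φ (N + 1)] y) (g^[φ N] y) a
    simp only [Function.comp_apply] at h2 h3
    linarith
  rw [h5] at h6
  exact absurd h6 (not_lt.2 (hfar _))

/-- a distance preserving map on a dense set extends to an isometry onto -/
theorem exists_iso {W : Type*} (p L : W → Y) (hd : ∀ v w, dist (L v) (L w) = dist (p v) (p w))
    (hr : ∀ y : Y, ∀ ε > 0, ∃ w, dist y (p w) < ε) : ∃ g : Y ≃ᵢ Y, ∀ w, g (p w) = L w := by
  have h1 : ∀ y : Y, ∃ s : ℕ → W, ∀ n : ℕ, dist y (p (s n)) < 1 / ((n : ℝ) + 1) := by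
    intro y
    have : ∀ n : ℕ, ∃ w, dist y (p w) < 1 / ((n : ℝ) + 1) := fun n => hr y _ (by positivity)
    choose s hs using this
    exact ⟨s, hs⟩
  choose s hs using h1
  have h2 : ∀ y : Y, ∃ x, Tendsto (fun n => L (s y n)) (hyperfilter ℕ : Filter ℕ) (𝓝 x) :=
    fun y => ulim _
  choose g hg using h2
  have hps : ∀ y : Y, Tendsto (fun n => p (s y n)) (hyperfilter ℕ : Filter ℕ) (𝓝 y) := by
    intro y
    have h3 : Tendsto (fun n => p (s y n)) atTop (𝓝 y) := by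
      rw [tendsto_iff_dist_tendsto_zero]
      refine squeeze_zero (fun n => dist_nonneg) (fun n => ?_)
        (tendsto_one_div_add_atTop_nhds_zero_nat (𝕜 := ℝ))
      rw [dist_comm]
      exact (hs y n).le
    exact h3.mono_left Nat.hyperfilter_le_atTop
  have hgd : ∀ x y, dist (g x) (g y) = dist x y := by
    intro x y
    have h3 := (hg x).dist (hg y)
    have h4 := (hps x).dist (hps y)
    have h5 : (fun n => dist (L (s x n)) (L (s y n))) = fun n => dist (p (s x n)) (p (s y n)) := by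
      funext n
      exact hd _ _
    rw [h5] at h3
    exact tendsto_nhds_unique h3 h4
  have hgp : ∀ w, g (p w) = L w := by
    intro w
    have h3 := (hg (p w)).dist (tendsto_const_nhds (x := L w))
    have h4 := (hps (p w)).dist (tendsto_const_nhds (x := p w))
    have h5 : (fun n => dist (L (s (p w) n)) (L w)) = fun n => dist (p (s (p w) n)) (p w) := by
      funext n
      exact hd _ _
    rw [h5] at h3
    have h6 := tendsto_nhds_unique h3 h4
    rw [dist_self] at h6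
    exact dist_eq_zero.1 h6
  have hb : Function.Bijective g := by
    refine ⟨fun x y hxy => ?_, surj g hgd⟩
    rw [← dist_eq_zero, ← hgd, hxy, dist_self]
  exact ⟨IsometryEquiv.mk (Equiv.ofBijective g hb) (isometry_iff_dist_eq.2 hgd), hgp⟩

end

/-! ## Sets -/

open SF CZ

variable {M : V → Prop}

theorem mins (k : ZFm M) {a b : V} (ha : M a) (hb : M b) : M (insert a b) :=
  (Tm.ins (Tm.var 0) (Tm.var 1)).1 M k (cons a fun _ => b) (by
    intro i
    cases i with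
    | zero => exact ha
    | succ i => exact hb)

theorem mfin (k : ZFm M) {x : V} (hx : (x : Set V).Finite) (h : ∀ a ∈ x, M a) : M x :=
  SE.H58.fin_ind (P := M) x hx (ZFm.mempty k) fun a ha y _ hy => mins k (h a ha) hy

theorem mnS (k : ZFm M) (n : ℕ) : M (nS n) := (Tm.nS n).1 M k (fun _ => nS 0) fun _ =>
  (by rw [nS_zero]; exact ZFm.mempty k)

theorem mem_nS_iff {n : ℕ} {x : V} : x ∈ nS n ↔ ∃ j < n, x = nS j := by
  induction n with
  | zero =>
    rw [nS_zero]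
    constructor
    · intro h
      exact absurd h (ZFSet.notMem_empty x)
    · rintro ⟨j, hj, _⟩
      omega
  | succ n ih =>
    rw [nS_succ, ZFSet.mem_insert_iff, ih]
    constructor
    · rintro (h | ⟨j, hj, h⟩)
      · exact ⟨n, by omega, h⟩
      · exact ⟨j, by omega, h⟩
    · rintro ⟨j, hj, h⟩
      rcases Nat.lt_or_ge j n with h1 | h1
      · exact Or.inr ⟨j, h1, h⟩
      · have : j = n := by omega
        subst this
        exact Or.inl h

theorem fin_range {n : ℕ} (F : Fin n → V) : ((ZFSet.range F : V) : Set V).Finite := by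
  refine (Set.finite_range F).subset fun x hx => ?_
  have hx' : x ∈ (ZFSet.range F : V) := hx
  rw [ZFSet.mem_range] at hx'
  exact hx'

theorem mem_tp {k : ℕ} {u : ℕ → V} {x : V} : x ∈ tp k u ↔ ∃ i < k, x = ZFSet.pair (nS i) (u i) := by
  unfold tp
  rw [ZFSet.mem_range]
  constructor
  · rintro ⟨i, rfl⟩
    exact ⟨i.1, i.2, rfl⟩
  · rintro ⟨i, hi, rfl⟩
    exact ⟨⟨i, hi⟩, rfl⟩

theorem app_tp {k : ℕ} {u : ℕ → V} {i : ℕ} (hi : i < k) : app (tp k u) (nS i) = u i := by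
  apply app_eq
  · intro x y y' h h'
    obtain ⟨j, hj, h1⟩ := mem_tp.1 h
    obtain ⟨j', hj', h1'⟩ := mem_tp.1 h'
    obtain ⟨h2, h3⟩ := ZFSet.pair_injective h1
    obtain ⟨h2', h3'⟩ := ZFSet.pair_injective h1'
    have h4 : j = j' := nS_inj.1 (h2.symm.trans h2')
    rw [h3, h3', h4]
  · exact mem_tp.2 ⟨i, hi, rfl⟩

theorem m_tp (hM : ZFm M) {k : ℕ} {u : ℕ → V} (hu : ∀ i, M (u i)) : M (tp k u) := by
  refine mfin hM (fin_range _) fun a ha => ?_
  obtain ⟨i, -, rfl⟩ := mem_tp.1 ha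
  exact ZFm.mpair hM (mnS hM i) (hu i)

/-- the witness -/
noncomputable def zz (k n : ℕ) (u y : ℕ → V) (K : ℕ → ℕ) (F : ℕ → ℕ → V) : V :=
  insert (ZFSet.pair (nS 0) (tp k u)) (insert (ZFSet.pair (nS 1) (tp n y))
    (ZFSet.range fun j : Fin n => ZFSet.pair (ZFSet.pair (nS 1) (nS j)) (tp (K j) (F j))))

theorem mem_zz {k n : ℕ} {u y : ℕ → V} {K : ℕ → ℕ} {F : ℕ → ℕ → V} {x : V} :
    x ∈ zz k n u y K F ↔ x = ZFSet.pair (nS 0) (tp k u) ∨ x = ZFSet.pair (nS 1) (tp n y) ∨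
      ∃ j < n, x = ZFSet.pair (ZFSet.pair (nS 1) (nS j)) (tp (K j) (F j)) := by
  unfold zz
  rw [ZFSet.mem_insert_iff, ZFSet.mem_insert_iff, ZFSet.mem_range]
  refine or_congr Iff.rfl (or_congr Iff.rfl ?_)
  constructor
  · rintro ⟨i, rfl⟩
    exact ⟨i.1, i.2, rfl⟩
  · rintro ⟨i, hi, rfl⟩
    exact ⟨⟨i, hi⟩, rfl⟩

theorem pair_ne0 (x y : V) : ZFSet.pair x y ≠ nS 0 := by
  intro h
  have h1 : ({x} : V) ∈ ZFSet.pair x y := by
    unfold ZFSet.pair
    exact ZFSet.mem_pair.2 (Or.inl rfl)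
  rw [h, nS_zero] at h1
  exact ZFSet.notMem_empty _ h1

theorem pair_ne1 (x y : V) : ZFSet.pair x y ≠ nS 1 := by
  intro h
  have h1 : ({x} : V) ∈ ZFSet.pair x y := by
    unfold ZFSet.pair
    exact ZFSet.mem_pair.2 (Or.inl rfl)
  rw [h, mem_nS_iff] at h1
  obtain ⟨j, hj, h2⟩ := h1
  have h3 : j = 0 := by omega
  subst h3
  rw [nS_zero] at h2
  have h4 : x ∈ ({x} : V) := ZFSet.mem_singleton.2 rfl
  rw [h2] at h4
  exact ZFSet.notMem_empty _ h4

theorem svl_zz (k n : ℕ) (u y : ℕ → V) (K : ℕ → ℕ) (F : ℕ → ℕ → V) : Svl (zz k n u y K F) := by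
  intro a b b' h h'
  have h01 : nS 0 ≠ nS 1 := fun h => absurd (nS_inj.1 h) (by omega)
  rcases mem_zz.1 h with h1 | h1 | ⟨j, hj, h1⟩ <;> rcases mem_zz.1 h' with h2 | h2 | ⟨i, hi, h2⟩ <;>
    obtain ⟨h3, h4⟩ := ZFSet.pair_injective h1 <;> obtain ⟨h5, h6⟩ := ZFSet.pair_injective h2
  · rw [h4, h6]
  · exact absurd (h3.symm.trans h5) h01
  · exact absurd (h5.symm.trans h3) (pair_ne0 _ _)
  · exact absurd (h5.symm.trans h3) h01
  · rw [h4, h6]
  · exact absurd (h5.symm.trans h3) (pair_ne1 _ _)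
  · exact absurd (h3.symm.trans h5) (pair_ne0 _ _)
  · exact absurd (h3.symm.trans h5) (pair_ne1 _ _)
  · have h7 : i = j := nS_inj.1 (ZFSet.pair_injective (h5.symm.trans h3)).2
    rw [h4, h6, h7]

theorem m_zz (hM : ZFm M) {k n : ℕ} {u y : ℕ → V} {K : ℕ → ℕ} {F : ℕ → ℕ → V}
    (hu : ∀ i, M (u i)) (hy : ∀ i, M (y i)) (hF : ∀ j i, M (F j i)) : M (zz k n u y K F) := by
  unfold zz
  refine mins hM (ZFm.mpair hM (mnS hM 0) (m_tp hM hu)) (mins hM (ZFm.mpair hM (mnS hM 1)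
    (m_tp hM hy)) (mfin hM (fin_range _) fun a ha => ?_))
  rw [ZFSet.mem_range] at ha
  obtain ⟨j, rfl⟩ := ha
  exact ZFm.mpair hM (ZFm.mpair hM (mnS hM 1) (mnS hM j)) (m_tp hM (hF j))

/-- coordinates -/
inductive Co : Type
  /-- tuple -/
  | f (i : ℕ)
  /-- dense sequence -/
  | y (i : ℕ)
  /-- blocks -/
  | b (j i : ℕ)

/-- codes of the coordinates -/
noncomputable def cd : Co → V
  | .f i => ZFSet.pair (nS 0) (nS i)
  | .y i => ZFSet.pair (nS 1) (nS i)
  | .b j i => ZFSet.pair (ZFSet.pair (nS 1) (nS j)) (nS i)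

/-- the coordinates at the stage `n` -/
def val (a : V) (k : ℕ) (K : ℕ → ℕ) (n : ℕ) : Co → Prop
  | .f i => i < k
  | .y i => i < n
  | .b j i => j < n ∧ app a (nS j) ≠ ∅ ∧ i < K j

/-- all coordinates -/
def vall (a : V) (k : ℕ) (K : ℕ → ℕ) : Co → Prop
  | .f i => i < k
  | .y i => True
  | .b j i => app a (nS j) ≠ ∅ ∧ i < K j

/-- the values -/
def qv (u y : ℕ → V) (F : ℕ → ℕ → V) : Co → V
  | .f i => u i
  | .y i => y i
  | .b j i => F j i

theorem fin_val (a : V) (k : ℕ) (K : ℕ → ℕ) (n : ℕ) : {w | val a k K n w}.Finite := by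
  have h : {w | val a k K n w} ⊆ (Co.f '' Iio k) ∪ ((Co.y '' Iio n) ∪
      ((fun z : ℕ × ℕ => Co.b z.1 z.2) '' (⋃ j ∈ Iio n, (fun i => (j, i)) '' Iio (K j)))) := by
    intro w hw
    cases w with
    | f i => exact Or.inl ⟨i, hw, rfl⟩
    | y i => exact Or.inr (Or.inl ⟨i, hw, rfl⟩)
    | b j i =>
      refine Or.inr (Or.inr ⟨(j, i), ?_, rfl⟩)
      simp only [mem_iUnion]
      exact ⟨j, hw.1, i, hw.2.2, rfl⟩
  refine Set.Finite.subset ?_ h
  refine ((finite_Iio k).image _).union (((finite_Iio n).image _).union (Set.Finite.image _ ?_))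
  exact (finite_Iio n).biUnion fun j _ => (finite_Iio (K j)).image _

theorem vall_of_val {a : V} {k : ℕ} {K : ℕ → ℕ} {n : ℕ} {w : Co} (h : val a k K n w) :
    vall a k K w := by
  cases w with
  | f i => exact h
  | y i => trivial
  | b j i => exact ⟨h.2.1, h.2.2⟩

theorem val_ev {a : V} {k : ℕ} {K : ℕ → ℕ} {w : Co} (h : vall a k K w) :
    ∀ᶠ n in (hyperfilter ℕ : Filter ℕ), val a k K n w := by
  refine Nat.hyperfilter_le_atTop ?_
  cases w with
  | f i => exact Filter.Eventually.of_forall fun n => h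
  | y i => exact Filter.eventually_gt_atTop i
  | b j i =>
    have h1 : ∀ᶠ n in (atTop : Filter ℕ), j < n := Filter.eventually_gt_atTop j
    exact h1.mono fun n hn => ⟨hn, h.1, h.2⟩

theorem co_zz {a : V} {k n : ℕ} {u y : ℕ → V} {K : ℕ → ℕ} {F : ℕ → ℕ → V} {w : Co}
    (h : val a k K n w) : co (zz k n u y K F) (cd w) = qv u y F w := by
  cases w with
  | f i =>
    show app (app _ (fst (ZFSet.pair (nS 0) (nS i)))) (snd (ZFSet.pair (nS 0) (nS i))) = u i
    rw [fst_pair, snd_pair, app_eq (svl_zz k n u y K F) (mem_zz.2 (Or.inl rfl))]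
    exact app_tp h
  | y i =>
    show app (app _ (fst (ZFSet.pair (nS 1) (nS i)))) (snd (ZFSet.pair (nS 1) (nS i))) = y i
    rw [fst_pair, snd_pair, app_eq (svl_zz k n u y K F) (mem_zz.2 (Or.inr (Or.inl rfl)))]
    exact app_tp h
  | b j i =>
    show app (app _ (fst (ZFSet.pair (ZFSet.pair (nS 1) (nS j)) (nS i))))
      (snd (ZFSet.pair (ZFSet.pair (nS 1) (nS j)) (nS i))) = F j i
    rw [fst_pair, snd_pair,
      app_eq (svl_zz k n u y K F) (mem_zz.2 (Or.inr (Or.inr ⟨j, h.1, rfl⟩)))]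
    exact app_tp h.2.2

/-- the upper constraint -/
noncomputable def up (D : Co → Co → ℝ) (n : ℕ) (w w' : Co) : V :=
  ZFSet.pair (nS 0) (ZFSet.pair (cd w) (ZFSet.pair (cd w')
    (ZFSet.pair (nS (⌊((n + 1 : ℕ) : ℝ) * D w w'⌋₊ + 1)) (nS (n + 1)))))

/-- the lower constraint -/
noncomputable def lo (D : Co → Co → ℝ) (n : ℕ) (w w' : Co) : V :=
  ZFSet.pair (nS 1) (ZFSet.pair (cd w) (ZFSet.pair (cd w')
    (ZFSet.pair (nS (⌈((n + 1 : ℕ) : ℝ) * D w w'⌉₊ - 1)) (nS (n + 1)))))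

/-- the set of constraints -/
noncomputable def AA (a : V) (k : ℕ) (K : ℕ → ℕ) (D : Co → Co → ℝ) (n : ℕ) : V :=
  SE.hf.sep fun c => ∃ w w', val a k K n w ∧ val a k K n w' ∧
    (c = up D n w w' ∨ (0 < D w w' ∧ c = lo D n w w'))

theorem cd_hf (w : Co) : cd w ∈ SE.hf := by
  obtain ⟨-, h1, -, h2, -⟩ := SE.pf_AA
  cases w with
  | f i => exact h2 _ (h1 _) _ (h1 _)
  | y i => exact h2 _ (h1 _) _ (h1 _)
  | b j i => exact h2 _ (h2 _ (h1 _) _ (h1 _)) _ (h1 _)

theorem up_mem {a : V} {k : ℕ} {K : ℕ → ℕ} {D : Co → Co → ℝ} {n : ℕ} {w w' : Co}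
    (h : val a k K n w) (h' : val a k K n w') : up D n w w' ∈ AA a k K D n := by
  obtain ⟨-, h1, -, h2, -⟩ := SE.pf_AA
  exact ZFSet.mem_sep.2 ⟨h2 _ (h1 _) _ (h2 _ (cd_hf w) _ (h2 _ (cd_hf w') _ (h2 _ (h1 _) _ (h1 _)))),
    w, w', h, h', Or.inl rfl⟩

theorem lo_mem {a : V} {k : ℕ} {K : ℕ → ℕ} {D : Co → Co → ℝ} {n : ℕ} {w w' : Co}
    (h : val a k K n w) (h' : val a k K n w') (hD : 0 < D w w') : lo D n w w' ∈ AA a k K D n := by
  obtain ⟨-, h1, -, h2, -⟩ := SE.pf_AA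
  exact ZFSet.mem_sep.2 ⟨h2 _ (h1 _) _ (h2 _ (cd_hf w) _ (h2 _ (cd_hf w') _ (h2 _ (h1 _) _ (h1 _)))),
    w, w', h, h', Or.inr ⟨hD, rfl⟩⟩

theorem AA_hf (a : V) (k : ℕ) (K : ℕ → ℕ) (D : Co → Co → ℝ) (n : ℕ) : AA a k K D n ∈ SE.hf := by
  obtain ⟨-, -, -, -, h3, -⟩ := SE.pf_AA
  refine h3 _ (fun c hc => (ZFSet.mem_sep.1 hc).1) ?_
  have hf := fin_val a k K n
  have h4 : ((AA a k K D n : V) : Set V) ⊆
      ((fun z : Co × Co => up D n z.1 z.2) '' ({w | val a k K n w} ×ˢ {w | val a k K n w})) ∪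
      ((fun z : Co × Co => lo D n z.1 z.2) '' ({w | val a k K n w} ×ˢ {w | val a k K n w})) := by
    intro c hc
    have hc' : c ∈ AA a k K D n := hc
    obtain ⟨-, w, w', h, h', h5 | ⟨-, h5⟩⟩ := ZFSet.mem_sep.1 hc'
    · exact Or.inl ⟨(w, w'), ⟨h, h'⟩, h5.symm⟩
    · exact Or.inr ⟨(w, w'), ⟨h, h'⟩, h5.symm⟩
  exact (((hf.prod hf).image _).union ((hf.prod hf).image _)).subset h4

theorem cn_up {M : V → Prop} {X R : V} {d : V → V → ℝ} (hR : Rk M X R d) {D : Co → Co → ℝ} {n : ℕ}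
    {w w' : Co} {z : V} : Cn R z (up D n w w') ↔ co z (cd w) ∈ X ∧ co z (cd w') ∈ X ∧
      ((n + 1 : ℕ) : ℝ) * d (co z (cd w)) (co z (cd w')) <
        ((⌊((n + 1 : ℕ) : ℝ) * D w w'⌋₊ + 1 : ℕ) : ℝ) := by
  unfold Cn up
  rw [fst_pair, snd_pair, fst_pair, snd_pair, fst_pair, snd_pair, hR.lt]
  constructor
  · rintro ⟨h1, h2, m, q, h3, h4⟩
    obtain ⟨h5, h6⟩ := ZFSet.pair_injective h3
    rw [nS_inj] at h5 h6
    subst h5
    subst h6
    exact ⟨h1, h2, h4⟩
  · rintro ⟨h1, h2, h3⟩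
    exact ⟨h1, h2, _, _, rfl, h3⟩

theorem cn_lo {M : V → Prop} {X R : V} {d : V → V → ℝ} (hR : Rk M X R d) {D : Co → Co → ℝ} {n : ℕ}
    {w w' : Co} {z : V} : Cn R z (lo D n w w') ↔ co z (cd w) ∈ X ∧ co z (cd w') ∈ X ∧
      ((⌈((n + 1 : ℕ) : ℝ) * D w w'⌉₊ - 1 : ℕ) : ℝ) <
        ((n + 1 : ℕ) : ℝ) * d (co z (cd w)) (co z (cd w')) := by
  unfold Cn lo
  rw [fst_pair, snd_pair, fst_pair, snd_pair, fst_pair, snd_pair, hR.gt]
  constructor
  · rintro ⟨h1, h2, m, q, h3, h4⟩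
    obtain ⟨h5, h6⟩ := ZFSet.pair_injective h3
    rw [nS_inj] at h5 h6
    subst h5
    subst h6
    exact ⟨h1, h2, h4⟩
  · rintro ⟨h1, h2, h3⟩
    exact ⟨h1, h2, _, _, rfl, h3⟩

end CZ.H14S

namespace CZ

open SF H14S

theorem pf_SEP : T_SEP := by
  intro M X R d hM hX hR Y _ _ ι hι a K F hB hS k f δ hδ
  have hZ : ZFm M := hM.toZFm
  have hMX : ∀ x ∈ X, M x := fun x hx => hZ.trans X hX.mem x hx
  -- a dense sequence
  have hne : Nonempty Y := ⟨ι (F 0 0)⟩
  obtain ⟨s, hs⟩ := TopologicalSpace.exists_dense_seq Y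
  have h1 : ∀ n : ℕ, ∃ x ∈ X, dist (s (Nat.unpair n).1) (ι x) < 1 / (((Nat.unpair n).2 : ℝ) + 1) :=
    fun n => hι.dense _ _ (by positivity)
  choose y hyX hy using h1
  set p : Co → Y := fun w => match w with
    | .f i => f i
    | .y i => ι (y i)
    | .b j i => ι (F j i) with hp
  set D : Co → Co → ℝ := fun w w' => dist (p w) (p w') with hD
  have hqX : ∀ u : ℕ → V, (∀ i, u i ∈ X) → ∀ w, qv u y F w ∈ X := by
    intro u hu w
    cases w with
    | f i => exact hu i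
    | y i => exact hyX i
    | b j i => exact hS.1 j i
  -- first property
  have hfirst : ∀ n : ℕ, ∃ ρ > 0, ∀ u : ℕ → V, (∀ i, u i ∈ X) →
      (∀ i < k, dist (ι (u i)) (f i) < ρ) → PP M R a (nS n) (AA a k K D n) (tp k u) := by
    intro n
    have hup : ∀ᶠ ρ in 𝓝[>] (0 : ℝ), ∀ z ∈ {w | val a k K n w} ×ˢ {w | val a k K n w},
        ((n + 1 : ℕ) : ℝ) * (D z.1 z.2 + 2 * ρ) <
          ((⌊((n + 1 : ℕ) : ℝ) * D z.1 z.2⌋₊ + 1 : ℕ) : ℝ) := by
      rw [Filter.eventually_all_finite ((fin_val a k K n).prod (fin_val a k K n))]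
      intro z _
      have h2 : Tendsto (fun ρ : ℝ => ((n + 1 : ℕ) : ℝ) * (D z.1 z.2 + 2 * ρ)) (𝓝[>] (0 : ℝ))
          (𝓝 (((n + 1 : ℕ) : ℝ) * (D z.1 z.2 + 2 * 0))) := by
        refine Tendsto.mono_left ?_ nhdsWithin_le_nhds
        exact (Continuous.tendsto (by fun_prop) 0)
      refine h2.eventually_lt_const ?_
      rw [mul_zero, add_zero]
      push_cast
      exact Nat.lt_floor_add_one _
    have hlo : ∀ᶠ ρ in 𝓝[>] (0 : ℝ), ∀ z ∈ {w | val a k K n w} ×ˢ {w | val a k K n w},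
        0 < D z.1 z.2 → ((⌈((n + 1 : ℕ) : ℝ) * D z.1 z.2⌉₊ - 1 : ℕ) : ℝ) <
          ((n + 1 : ℕ) : ℝ) * (D z.1 z.2 - 2 * ρ) := by
      rw [Filter.eventually_all_finite ((fin_val a k K n).prod (fin_val a k K n))]
      intro z _
      rcases lt_or_ge 0 (D z.1 z.2) with h0 | h0
      · have h2 : Tendsto (fun ρ : ℝ => ((n + 1 : ℕ) : ℝ) * (D z.1 z.2 - 2 * ρ)) (𝓝[>] (0 : ℝ))
            (𝓝 (((n + 1 : ℕ) : ℝ) * (D z.1 z.2 - 2 * 0))) := by
          refine Tendsto.mono_left ?_ nhdsWithin_le_nhds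
          exact (Continuous.tendsto (by fun_prop) 0)
        refine (h2.eventually_const_lt ?_).mono fun ρ hρ _ => hρ
        rw [mul_zero, _root_.sub_zero]
        have h3 : 0 < ((n + 1 : ℕ) : ℝ) * D z.1 z.2 := by positivity
        have h4 : 0 < ⌈((n + 1 : ℕ) : ℝ) * D z.1 z.2⌉₊ := Nat.ceil_pos.2 h3
        have h5 := Nat.ceil_lt_add_one h3.le
        have h6 : ((⌈((n + 1 : ℕ) : ℝ) * D z.1 z.2⌉₊ - 1 : ℕ) : ℝ) =
            (⌈((n + 1 : ℕ) : ℝ) * D z.1 z.2⌉₊ : ℝ) - 1 := by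
          rw [Nat.cast_sub (by omega), Nat.cast_one]
        rw [h6]
        linarith
      · exact Filter.Eventually.of_forall fun ρ h => absurd h (not_lt.2 h0)
    obtain ⟨ρ, ⟨hρ1, hρ2⟩, hρ0⟩ := ((hup.and hlo).and self_mem_nhdsWithin).exists
    refine ⟨ρ, hρ0, fun u hu hclose => ?_⟩
    have hdist : ∀ w, val a k K n w → dist (ι (qv u y F w)) (p w) < ρ := by
      intro w hw
      cases w with
      | f i => exact hclose i hw
      | y i =>
        show dist (ι (y i)) (ι (y i)) < ρ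
        rw [dist_self]
        exact hρ0
      | b j i =>
        show dist (ι (F j i)) (ι (F j i)) < ρ
        rw [dist_self]
        exact hρ0
    have hdd : ∀ w w', val a k K n w → val a k K n w' →
        d (qv u y F w) (qv u y F w') < D w w' + 2 * ρ ∧
          D w w' - 2 * ρ < d (qv u y F w) (qv u y F w') := by
      intro w w' hw hw'
      have h3 := hdist w hw
      have h4 := hdist w' hw'
      rw [← hι.dist _ (hqX u hu w) _ (hqX u hu w')]
      have h5 := dist_triangle4 (ι (qv u y F w)) (p w) (p w') (ι (qv u y F w'))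
      have h6 := dist_triangle4 (p w) (ι (qv u y F w)) (ι (qv u y F w')) (p w')
      rw [dist_comm (p w') (ι (qv u y F w'))] at h5
      rw [dist_comm (p w) (ι (qv u y F w))] at h6
      constructor
      · show _ < dist (p w) (p w') + 2 * ρ
        linarith
      · show dist (p w) (p w') - 2 * ρ < _
        linarith
    refine ⟨zz k n u y K F, m_zz hZ (fun i => hMX _ (hu i)) (fun i => hMX _ (hyX i))
      (fun j i => hMX _ (hS.1 j i)), app_eq (svl_zz _ _ _ _ _ _) (mem_zz.2 (Or.inl rfl)), ?_, ?_⟩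
    · intro j hj
      obtain ⟨m, hm, rfl⟩ := mem_nS_iff.1 hj
      by_cases he : app a (nS m) = ∅
      · exact Or.inl he
      · right
        rw [app_eq (svl_zz _ _ _ _ _ _) (mem_zz.2 (Or.inr (Or.inr ⟨m, hm, rfl⟩)))]
        exact hS.2 m he
    · intro c hc
      obtain ⟨-, w, w', hw, hw', rfl | ⟨h0, rfl⟩⟩ := ZFSet.mem_sep.1 hc
      · rw [cn_up hR, co_zz hw, co_zz hw']
        refine ⟨hqX u hu w, hqX u hu w', lt_of_lt_of_le ?_ (hρ1 (w, w') ⟨hw, hw'⟩).le⟩
        exact mul_lt_mul_of_pos_left (hdd w w' hw hw').1 (by positivity)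
      · rw [cn_lo hR, co_zz hw, co_zz hw']
        refine ⟨hqX u hu w, hqX u hu w', lt_trans (hρ2 (w, w') ⟨hw, hw'⟩ h0) ?_⟩
        exact mul_lt_mul_of_pos_left (hdd w w' hw hw').2 (by positivity)
  -- contradiction
  by_contra hcon
  have hbad : ∀ n : ℕ, ∃ u : ℕ → V, (∀ i, u i ∈ X) ∧ PP M R a (nS n) (AA a k K D n) (tp k u) ∧
      ∀ g : Y ≃ᵢ Y, (∀ i < k, dist (ι (u i)) (g (f i)) < δ) → ¬ Pre ι X a K F g := by
    intro n
    by_contra hno
    obtain ⟨ρ, hρ, hfs⟩ := hfirst n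
    refine hcon ⟨n, AA a k K D n, AA_hf a k K D n, ρ, hρ, hfs, fun u hu hPP => ?_⟩
    by_contra hg
    exact hno ⟨u, hu, hPP, fun g h2 h3 => hg ⟨g, h2, h3⟩⟩
  choose u huX hPP hng using hbad
  choose z hzM hz0 hzb hzc using hPP
  -- distances in the limit
  have hcX : ∀ n w, val a k K n w → co (z n) (cd w) ∈ X := by
    intro n w hw
    exact ((cn_up hR).1 (hzc n _ (up_mem (D := D) hw hw))).1
  have hclo : ∀ n w w', val a k K n w → val a k K n w' →
      |dist (ι (co (z n) (cd w))) (ι (co (z n) (cd w'))) - D w w'| ≤ 1 / ((n : ℝ) + 1) := by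
    intro n w w' hw hw'
    rw [hι.dist _ (hcX n w hw) _ (hcX n w' hw')]
    have hpos : (0 : ℝ) < (n : ℝ) + 1 := by positivity
    have hD0 : 0 ≤ D w w' := dist_nonneg
    have h2 := ((cn_up hR).1 (hzc n _ (up_mem (D := D) hw hw'))).2.2
    have h3 := Nat.floor_le (show 0 ≤ ((n + 1 : ℕ) : ℝ) * D w w' by positivity)
    push_cast at h2 h3
    have h4 : ((n : ℝ) + 1) * d (co (z n) (cd w)) (co (z n) (cd w')) <
        ((n : ℝ) + 1) * (D w w' + 1 / ((n : ℝ) + 1)) := by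
      rw [mul_add, mul_one_div_cancel hpos.ne']
      linarith
    have h5 := lt_of_mul_lt_mul_left h4 hpos.le
    have h6 : D w w' - 1 / ((n : ℝ) + 1) ≤ d (co (z n) (cd w)) (co (z n) (cd w')) := by
      rcases hD0.lt_or_eq with h0 | h0
      · have h7 := ((cn_lo hR).1 (hzc n _ (lo_mem (D := D) hw hw' h0))).2.2
        have h8 : 0 < ((n + 1 : ℕ) : ℝ) * D w w' := by positivity
        have h9 : 0 < ⌈((n + 1 : ℕ) : ℝ) * D w w'⌉₊ := Nat.ceil_pos.2 h8
        have h10 := Nat.le_ceil (((n + 1 : ℕ) : ℝ) * D w w')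
        have h11 : ((⌈((n + 1 : ℕ) : ℝ) * D w w'⌉₊ - 1 : ℕ) : ℝ) =
            (⌈((n + 1 : ℕ) : ℝ) * D w w'⌉₊ : ℝ) - 1 := by
          rw [Nat.cast_sub (by omega), Nat.cast_one]
        rw [h11] at h7
        push_cast at h7 h10
        have h12 : ((n : ℝ) + 1) * (D w w' - 1 / ((n : ℝ) + 1)) <
            ((n : ℝ) + 1) * d (co (z n) (cd w)) (co (z n) (cd w')) := by
          rw [_root_.mul_sub, mul_one_div_cancel hpos.ne']
          linarith
        exact (lt_of_mul_lt_mul_left h12 hpos.le).le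
      · rw [← h0, ← hι.dist _ (hcX n w hw) _ (hcX n w' hw')]
        have h7 : 0 ≤ 1 / ((n : ℝ) + 1) := by positivity
        have h8 : 0 ≤ dist (ι (co (z n) (cd w))) (ι (co (z n) (cd w'))) := dist_nonneg
        linarith
    rw [abs_le]
    constructor
    · linarith
    · linarith
  have hL : ∀ w : Co, ∃ x : Y, Tendsto (fun n => ι (co (z n) (cd w))) (hyperfilter ℕ : Filter ℕ)
      (𝓝 x) := fun w => ulim _
  choose L hL using hL
  have hLD : ∀ w w', vall a k K w → vall a k K w' → dist (L w) (L w') = D w w' := by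
    intro w w' hw hw'
    have h2 := (hL w).dist (hL w')
    have h3 : Tendsto (fun n => dist (ι (co (z n) (cd w))) (ι (co (z n) (cd w'))))
        (hyperfilter ℕ : Filter ℕ) (𝓝 (D w w')) := by
      rw [tendsto_iff_dist_tendsto_zero]
      have h4 : Tendsto (fun n : ℕ => 1 / ((n : ℝ) + 1)) (hyperfilter ℕ : Filter ℕ) (𝓝 0) :=
        (tendsto_one_div_add_atTop_nhds_zero_nat (𝕜 := ℝ)).mono_left Nat.hyperfilter_le_atTop
      refine squeeze_zero' (Filter.Eventually.of_forall fun n => dist_nonneg) ?_ h4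
      filter_upwards [val_ev hw, val_ev hw'] with n h5 h6
      rw [Real.dist_eq]
      exact hclo n w w' h5 h6
    exact tendsto_nhds_unique h2 h3
  obtain ⟨g, hg⟩ := exists_iso (W := {w : Co // vall a k K w}) (fun w => p w.1) (fun w => L w.1)
    (fun v w => hLD v.1 w.1 v.2 w.2) (by
      intro x ε hε
      obtain ⟨m, hm⟩ := hs.exists_dist_lt x (half_pos hε)
      obtain ⟨q, hq⟩ := exists_nat_one_div_lt (half_pos hε)
      refine ⟨⟨Co.y (Nat.pair m q), trivial⟩, ?_⟩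
      show dist x (ι (y (Nat.pair m q))) < ε
      have h2 := hy (Nat.pair m q)
      rw [Nat.unpair_pair] at h2
      have h3 := dist_triangle x (s m) (ι (y (Nat.pair m q)))
      simp only at h2
      linarith)
  have hgv : ∀ w, vall a k K w → g (p w) = L w := fun w hw => hg ⟨w, hw⟩
  -- the preservation of the closures
  have hblock : ∀ n j, j < n → app a (nS j) ≠ ∅ → ∃ t : ℕ → V, (∀ i, t i ∈ X) ∧
      tp (K j) t ∈ app a (nS j) ∧ ∀ i < K j, co (z n) (cd (Co.b j i)) = t i := by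
    intro n j hj he
    have h2 := (hzb n (nS j) (mem_nS_iff.2 ⟨j, hj, rfl⟩)).resolve_left he
    obtain ⟨t, htX, ht⟩ := hB j _ h2
    refine ⟨t, htX, by rw [← ht]; exact h2, fun i hi => ?_⟩
    show app (app (z n) (fst (ZFSet.pair (ZFSet.pair (nS 1) (nS j)) (nS i))))
      (snd (ZFSet.pair (ZFSet.pair (nS 1) (nS j)) (nS i))) = t i
    rw [fst_pair, snd_pair, ht]
    exact app_tp hi
  have hPre : Pre ι X a K F g := by
    intro j he η hη
    have h2 : ∀ᶠ n in (hyperfilter ℕ : Filter ℕ), ∀ i ∈ Iio (K j),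
        dist (ι (co (z n) (cd (Co.b j i)))) (L (Co.b j i)) < η := by
      rw [Filter.eventually_all_finite (finite_Iio (K j))]
      intro i hi
      exact (hL (Co.b j i)).eventually (Metric.ball_mem_nhds _ hη)
    have h3 : ∀ᶠ n in (hyperfilter ℕ : Filter ℕ), j < n :=
      Nat.hyperfilter_le_atTop (Filter.eventually_gt_atTop j)
    obtain ⟨n, h4, h5⟩ := (h2.and h3).exists
    obtain ⟨t, htX, ht, hti⟩ := hblock n j h5 he
    refine ⟨t, htX, ht, fun i hi => ?_⟩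
    have h6 : g (ι (F j i)) = L (Co.b j i) := hgv (Co.b j i) ⟨he, hi⟩
    rw [h6, ← hti i hi]
    exact h4 i hi
  have hnear : ∀ᶠ n in (hyperfilter ℕ : Filter ℕ), ∀ i ∈ Iio k,
      dist (ι (co (z n) (cd (Co.f i)))) (L (Co.f i)) < δ := by
    rw [Filter.eventually_all_finite (finite_Iio k)]
    intro i hi
    exact (hL (Co.f i)).eventually (Metric.ball_mem_nhds _ hδ)
  obtain ⟨n, hn⟩ := hnear.exists
  refine hng n g (fun i hi => ?_) hPre
  have h2 : g (f i) = L (Co.f i) := hgv (Co.f i) hi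
  have h3 : co (z n) (cd (Co.f i)) = u n i := by
    show app (app (z n) (fst (ZFSet.pair (nS 0) (nS i)))) (snd (ZFSet.pair (nS 0) (nS i))) = u n i
    rw [fst_pair, snd_pair, hz0]
    exact app_tp hi
  rw [h2, ← h3]
  exact hn i hi

end CZ
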